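import Mathlib
import Pool.Agent.N119.PS.Stm3

/-!
# Project PSC3 (helper119), leaf EIG: the eigenfunction at the critical exponent (helper271)
-/

set_option autoImplicit false

namespace Pool.Agent.N271.PSC3.EIG

open Pool.Agent.H472R3 Pool.Agent.H67R3.FSR Pool.Agent.H67R4.SR Pool.Agent.N119.PS Filter Topology

variable {N : ℕ}

lemma mk_red {L : List (Lt N)} (h : FreeGroup.IsReduced L) :
    (FreeGroup.mk L : FreeGroup (Fin N)).toWord = L := by
  rw [FreeGroup.toWord_mk, h.reduce_eq]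

/-- the last `k` letters -/
lemma split (u : FreeGroup (Fin N)) (k : ℕ) (hk : k ≤ u.norm) :
    ∃ t v : FreeGroup (Fin N), u = t * v ∧ v.norm = k ∧
      FreeGroup.IsReduced (t.toWord ++ v.toWord) := by
  have hr : FreeGroup.IsReduced u.toWord := FreeGroup.isReduced_toWord
  obtain ⟨m, hm⟩ : ∃ m, m + k = u.toWord.length := ⟨u.norm - k, by
    have : u.norm = u.toWord.length := rfl
    omega⟩
  have h1 : FreeGroup.IsReduced (u.toWord.take m) :=
    hr.infix (List.take_prefix m u.toWord).isInfix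
  have h2 : FreeGroup.IsReduced (u.toWord.drop m) :=
    hr.infix (List.drop_suffix m u.toWord).isInfix
  refine ⟨FreeGroup.mk (u.toWord.take m), FreeGroup.mk (u.toWord.drop m), ?_, ?_, ?_⟩
  · rw [FreeGroup.mul_mk, List.take_append_drop, FreeGroup.mk_toWord]
  · show (FreeGroup.mk (u.toWord.drop m)).toWord.length = k
    rw [mk_red h2, List.length_drop]
    omega
  · rw [mk_red h1, mk_red h2, List.take_append_drop]
    exact hr

lemma norm_mul_red {t v : FreeGroup (Fin N)} (h : FreeGroup.IsReduced (t.toWord ++ v.toWord)) :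
    (t * v).norm = t.norm + v.norm := by
  have h1 : t * v = FreeGroup.mk (t.toWord ++ v.toWord) := by
    rw [← FreeGroup.mul_mk, FreeGroup.mk_toWord, FreeGroup.mk_toWord]
  show (t * v).toWord.length = t.toWord.length + v.toWord.length
  rw [h1, mk_red h, List.length_append]

theorem t (h1 : S_Z1) (h2 : S_Z2) : S_EIG := by
  intro N hN A hA x k hM
  have hz : ∀ j : ℕ, ∃ s : ℝ, critExp A < s ∧ s < critExp A + 1 / ((j : ℝ) + 1) ∧
      ∃ v : FreeGroup (Fin N), v.norm = k ∧ (j : ℝ) < Zs A x s v :=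
    fun j => h2 N hN A hA x k hM j (1 / ((j : ℝ) + 1)) (by positivity)
  choose s hs1 hs2 w hw1 hw2 using hz
  have hZ := fun j => h1 N A hA x k hM (s j) (hs1 j)
  have hmax : ∀ j, ∃ m ∈ sph N k, ∀ v ∈ sph N k, Zs A x (s j) v ≤ Zs A x (s j) m :=
    fun j => Finset.exists_max_image (sph N k) (Zs A x (s j)) ⟨w j, mem_sph.2 (hw1 j)⟩
  choose m hm1 hm2 using hmax
  obtain ⟨R, hR⟩ : ∃ R : ℕ → ℝ, R = fun j => Zs A x (s j) (m j) := ⟨_, rfl⟩
  have hRj : ∀ j : ℕ, (j : ℝ) < R j := by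
    intro j
    rw [hR]
    exact lt_of_lt_of_le (hw2 j) (hm2 j (w j) (mem_sph.2 (hw1 j)))
  have hR0 : ∀ j, 0 < R j := fun j => lt_of_le_of_lt (Nat.cast_nonneg j) (hRj j)
  have hZR : ∀ j u, k ≤ u.norm → Zs A x (s j) u ≤ R j := by
    intro j u hu
    obtain ⟨t, v, rfl, hv, hr⟩ := split u k hu
    rw [(hZ j).2.2.1 t v hv.ge hr, hR]
    exact hm2 j v (mem_sph.2 hv)
  -- the functions
  obtain ⟨F, hF⟩ : ∃ F : ℕ → FreeGroup (Fin N) → ℝ,
      F = fun j u => if k ≤ u.norm then Zs A x (s j) u / R j else 0 := ⟨_, rfl⟩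
  have hF1 : ∀ j u, k ≤ u.norm → F j u = Zs A x (s j) u / R j := by
    intro j u hu
    rw [hF]
    exact if_pos hu
  have hFI : ∀ j u, F j u ∈ Set.Icc (0 : ℝ) 1 := by
    intro j u
    rw [hF]
    beta_reduce
    split_ifs with hu
    · have h3 := (hZ j).2.1 u
      exact ⟨div_nonneg (by linarith) (hR0 j).le, (div_le_one (hR0 j)).2 (hZR j u hu)⟩
    · exact ⟨le_rfl, zero_le_one⟩
  obtain ⟨𝒰, h𝒰⟩ : ∃ 𝒰 : Ultrafilter ℕ, 𝒰 = hyperfilter ℕ := ⟨_, rfl⟩
  have hle : (𝒰 : Filter ℕ) ≤ atTop := by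
    rw [h𝒰, ← Nat.cofinite_eq_atTop]
    exact hyperfilter_le_cofinite
  have hlim : ∀ u, ∃ l ∈ Set.Icc (0 : ℝ) 1, Tendsto (fun j => F j u) 𝒰 (𝓝 l) := by
    intro u
    have h3 : ((𝒰.map fun j => F j u : Ultrafilter ℝ) : Filter ℝ) ≤ 𝓟 (Set.Icc (0 : ℝ) 1) := by
      rw [le_principal_iff, Ultrafilter.coe_map, mem_map]
      exact Filter.univ_mem' fun j => hFI j u
    obtain ⟨l, hl, h4⟩ := isCompact_Icc.ultrafilter_le_nhds _ h3
    exact ⟨l, hl, h4⟩
  choose Φ hΦ1 hΦ2 using hlim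
  -- limits
  have hsl : Tendsto s 𝒰 (𝓝 (critExp A)) := by
    refine Tendsto.mono_left ?_ hle
    have h3 : Tendsto (fun j : ℕ => critExp A + 1 / ((j : ℝ) + 1)) atTop
        (𝓝 (critExp A + 0)) := tendsto_const_nhds.add tendsto_one_div_add_atTop_nhds_zero_nat
    rw [add_zero] at h3
    exact tendsto_of_tendsto_of_tendsto_of_le_of_le tendsto_const_nhds h3
      (fun j => (hs1 j).le) (fun j => (hs2 j).le)
  have hRl : Tendsto (fun j => 1 / R j) 𝒰 (𝓝 0) := by
    refine Tendsto.mono_left ?_ hle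
    have h3 : Tendsto R atTop atTop :=
      tendsto_atTop_mono (fun j => (hRj j).le) tendsto_natCast_atTop_atTop
    simp only [one_div]
    exact h3.inv_tendsto_atTop
  refine ⟨Φ, fun u => (hΦ1 u).1, ?_, ?_, ?_⟩
  · -- a vertex with value one
    have h3 : ∀ᶠ j in (𝒰 : Filter ℕ), ∃ v ∈ (sph N k : Set (FreeGroup (Fin N))), m j = v :=
      Filter.Eventually.of_forall fun j => ⟨m j, hm1 j, rfl⟩
    rw [Ultrafilter.eventually_exists_mem_iff (sph N k).finite_toSet] at h3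
    obtain ⟨v, hv, h4⟩ := h3
    have hvk : v.norm = k := mem_sph.1 hv
    refine ⟨v, hvk, ?_⟩
    have h5 : (fun j => F j v) =ᶠ[𝒰] fun _ => (1 : ℝ) := by
      filter_upwards [h4] with j hj
      rw [hF1 j v hvk.ge, ← hj, hR]
      have h6 := hR0 j
      rw [hR] at h6
      exact div_self h6.ne'
    have h6 := tendsto_nhds_unique (hΦ2 v) (tendsto_const_nhds.congr' h5.symm)
    rw [h6]
    exact one_pos
  · intro t v hv hr
    refine tendsto_nhds_unique (hΦ2 (t * v)) ((hΦ2 v).congr fun j => ?_)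
    rw [hF1 j v hv, hF1 j (t * v) (by rw [norm_mul_red hr]; omega), (hZ j).2.2.1 t v hv hr]
  · intro u hu
    refine tendsto_nhds_unique (hΦ2 u) ?_
    have h3 : Tendsto (fun j => 1 / R j + ∑ e ∈ (sph N (u.norm + 1)).filter (fun e => ini e = u),
        Real.exp (-s j * ((lenFn A x).L e - (lenFn A x).L u)) * F j e) 𝒰
        (𝓝 (0 + ∑ e ∈ (sph N (u.norm + 1)).filter (fun e => ini e = u),
        Real.exp (-critExp A * ((lenFn A x).L e - (lenFn A x).L u)) * Φ e)) := by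
      refine hRl.add (tendsto_finsetSum _ fun e _ => ?_)
      refine Tendsto.mul ?_ (hΦ2 e)
      exact (Real.continuous_exp.tendsto _).comp (hsl.neg.mul_const _)
    rw [zero_add] at h3
    refine h3.congr fun j => ?_
    rw [hF1 j u hu, (hZ j).2.2.2 u, add_div]
    congr 1
    rw [Finset.sum_div]
    refine Finset.sum_congr rfl fun e he => ?_
    have h4 : e.norm = u.norm + 1 := mem_sph.1 (Finset.mem_filter.1 he).1
    rw [hF1 j e (by omega), mul_div_assoc]

end Pool.Agent.N271.PSC3.EIG
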